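import Pool.Agent.H579.R.Tup4R
import Pool.Agent.H579.R.Reg

/-!
# The Hardy-Littlewood formula for almost all shapes in prescribed residue classes of moduli up to `x ^ (2 / 3 - ρ)`, with
# ARBITRARY weights

The question asks for the number of the primes `p ≤ n` for which `p + m_1, ..., p + m_k` are primes. We study the sums

  `∑_{n ≤ x, all n + h_i prime} w(n) ∏ log (n + h_i)`

with ARBITRARY weights `|w(n)| ≤ 1`; for instance `w` is the indicator function of an arbitrary set `S` of integers:
the primes, the members `n` of prime tuples, a Beatty sequence, a random set, .... Hardy and Littlewood's heuristics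
say that the condition that `n + h_i` is a prime may be replaced by the condition that `n + h_i` has no prime factor `≤ z`, provided that the
result is multiplied by `∏_{p ≤ z} (1 - 1 / p)^(-1)` for every `i` (and `log (n + h_i)` is left out). We prove this, with
the error term `O(x / (log x) ^ A)`, for every power `z` of the logarithm and for almost all `h` in THIN sets of
shapes: `h_i ≡ a_i (mod q_i)`, where the moduli `q_i` may be as large as `x ^ (2 / 3 - ρ)` and the classes `a_i` are
arbitrary. The number of the exceptions is at most `∏ (x / q_i) / (log x) ^ A`, for every function `w`.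

With `w = 1` the sum over the integers without small prime factors is evaluated, and this is the formula of Hardy and
Littlewood for the `k`-tuples `n + h_1, ..., n + h_k` of primes, with the singular series (part 2).

The moduli have to be regular: not divisible by a member of a set `D` of at most `(log x) ^ c` integers, the RADICALS
of which are larger than any given power of `log x`; `D` does not depend on the moduli, the classes, the weights and the
shapes. In particular there is NO condition on moduli whose radical is at most a power of `log x`, for instance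
`q_i = 10 ^ m`: prescribed last digits. For the other moduli some condition of this kind is necessary with present
knowledge (Siegel zeros).

Proof. The sums of `Λ - (sieve model)` over the Dirichlet characters modulo `q ≤ x ^ (2 / 3 - ρ)` are small in mean
square on the minor arcs and, apart from few characters, on the major arcs (library: `R460/GH`); a large value of a
primitive character is excluded for all conductors outside a small set (`G/CntL`), and for the conductors with a small
radical by Postnikov's formula and Vinogradov's method (`H567/PP`, `R/PG4R`). Hence the sum of the squares over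
ALL residue classes modulo `q` of the trigonometric sums is at most `x ^ 2 / (q (log x) ^ A)` (`G/PG4`), so that the
correlation of `Λ - (sieve model)` with an ARBITRARY bounded function is small for almost all shifts of every class
(`G/Wt4`). The factors of the product `Λ(n + h_1) ... Λ(n + h_k)` are replaced one after the other by their sieve
models, the weight being the product of `w(n)` with all other factors (`G/Multi2`, `G/Tup4`).
-/

set_option autoImplicit false

namespace Pool.Agent.Results.MP_68a45e_nt.ArbitraryWeightsSparseShapes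

open Finset

/-- the radical of `d`: the product of the primes dividing `d` -/
def rad (d : ℕ) : ℕ := ∏ p ∈ d.primeFactors, p

/-- the product of `1 - 1 / p` over the primes `p ≤ z` -/
noncomputable def mertens (z : ℕ) : ℝ := ∏ p ∈ (Icc 1 z).filter Nat.Prime, (1 - 1 / (p : ℝ))

/-- the sum of `w n * ∏ log (n + h i)` over the positive integers `n ≤ x` for which all `n + h i` are primes -/
noncomputable def primeSum {k : ℕ} (x : ℕ) (w : ℕ → ℝ) (h : Fin k → ℤ) : ℝ :=
  ∑ n ∈ (Icc 1 x).filter (fun n : ℕ => ∀ i, ((n : ℤ) + h i).toNat.Prime),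
    w n * ∏ i, Real.log ((n : ℤ) + h i).toNat

open Classical in
/-- the sum of `w n` over the positive integers `n ≤ x` for which all `n + h i` are positive and without prime factors
up to `z` -/
noncomputable def roughSum {k : ℕ} (x z : ℕ) (w : ℕ → ℝ) (h : Fin k → ℤ) : ℝ :=
  ∑ n ∈ (Icc 1 x).filter
    (fun n : ℕ => ∀ i, 0 < (n : ℤ) + h i ∧ ∀ p : ℕ, p.Prime → p ≤ z → ¬ (p : ℤ) ∣ n + h i), w n

/-- the number of the residue classes `m` modulo `p` for which one of the `m + h i` is divisible by `p` -/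
noncomputable def classes {k : ℕ} (h : Fin k → ℤ) (p : ℕ) : ℕ :=
  Set.ncard {m : ℕ | m < p ∧ ∃ i, (p : ℤ) ∣ m + h i}

/-- the singular series of Hardy and Littlewood -/
noncomputable def singular {k : ℕ} (h : Fin k → ℤ) : ℝ :=
  ∏' p : Nat.Primes, (1 - (classes h p : ℝ) / (p : ℕ)) / (1 - 1 / ((p : ℕ) : ℝ)) ^ k

theorem singular_eq {k : ℕ} (h : Fin k → ℤ) : Pool.Agent.H579.G.sing (fun _ => 1) h = singular h := by
  classical
  unfold Pool.Agent.H579.G.sing singular
  congr 1
  funext p
  unfold Pool.Agent.H579.G.fac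
  have e : Pool.Agent.H373R2.T7.nuB (Pool.Agent.H579.G.Qf (fun _ => 1) h) p = classes h p := by
    unfold Pool.Agent.H373R2.T7.nuB classes
    rw [← Set.ncard_coe_finset]
    congr 1
    ext m
    rw [Finset.mem_coe, Finset.mem_filter, Finset.mem_range, Set.mem_ofPred_eq]
    unfold Pool.Agent.H579.G.Qf
    simp only [one_mul]
  rw [e]

/-- the weighted sum over the primes -/
theorem primeSum_eq {k : ℕ} (x : ℕ) (w : ℕ → ℝ) (h : Fin k → ℤ) :
    ∑ n ∈ Icc 1 x, w n * ∏ i, Pool.Agent.H579.G.ex Pool.Agent.H579.G.thp (h i) n = primeSum x w h := by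
  classical
  unfold primeSum
  rw [sum_filter]
  refine sum_congr rfl fun n _ => ?_
  have e1 : ∀ i, Pool.Agent.H579.G.ex Pool.Agent.H579.G.thp (h i) n =
      if ((n : ℤ) + h i).toNat.Prime then Real.log ((n : ℤ) + h i).toNat else 0 := by
    intro i
    unfold Pool.Agent.H579.G.ex Pool.Agent.H579.G.thp
    split_ifs with h1 h2 h3
    · rfl
    · rfl
    · exfalso
      have : ((n : ℤ) + h i).toNat = 0 := by omega
      rw [this] at h3
      exact Nat.not_prime_zero h3
    · rfl
  simp only [e1]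
  split_ifs with h1
  · congr 1
    exact prod_congr rfl fun i _ => if_pos (h1 i)
  · push Not at h1
    obtain ⟨i, hi⟩ := h1
    rw [prod_eq_zero (mem_univ i) (if_neg hi), mul_zero]

/-- the weighted sum over the integers without small prime factors -/
theorem roughSum_eq {k : ℕ} (x z : ℕ) (w : ℕ → ℝ) (h : Fin k → ℤ) :
    ∑ n ∈ Icc 1 x, w n * ∏ i, Pool.Agent.H579.G.ex (Pool.Agent.H373R2.T7.lamz z) (h i) n =
      roughSum x z w h / mertens z ^ k := by
  classical
  unfold roughSum
  rw [sum_filter, sum_div]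
  refine sum_congr rfl fun n _ => ?_
  have e1 : ∀ i, Pool.Agent.H579.G.ex (Pool.Agent.H373R2.T7.lamz z) (h i) n =
      if (0 < (n : ℤ) + h i ∧ ∀ p : ℕ, p.Prime → p ≤ z → ¬ (p : ℤ) ∣ n + h i) then (mertens z)⁻¹ else 0 := by
    intro i
    have hV : Pool.Agent.H373R2.T7.Vz z = mertens z := rfl
    unfold Pool.Agent.H579.G.ex Pool.Agent.H373R2.T7.lamz
    rw [hV]
    by_cases h1 : 0 < (n : ℤ) + h i
    · rw [if_pos h1]
      have e3 : (∀ p ∈ Pool.Agent.H373R2.T7.pz z, ¬ p ∣ ((n : ℤ) + h i).toNat) ↔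
          (0 < (n : ℤ) + h i ∧ ∀ p : ℕ, p.Prime → p ≤ z → ¬ (p : ℤ) ∣ n + h i) := by
        constructor
        · intro h2
          refine ⟨h1, fun p hp hpz hd => h2 p (Pool.Agent.H373R2.T7.mem_pz.2 ⟨hpz, hp⟩) ?_⟩
          rw [← Int.natCast_dvd_natCast, Int.toNat_of_nonneg h1.le]
          exact hd
        · rintro ⟨-, h2⟩ p hp hd
          obtain ⟨hpz, hpp⟩ := Pool.Agent.H373R2.T7.mem_pz.1 hp
          refine h2 p hpp hpz ?_
          rw [← Int.natCast_dvd_natCast, Int.toNat_of_nonneg h1.le] at hd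
          exact hd
      simp only [e3]
    · rw [if_neg h1, if_neg fun h2 => h1 h2.1]
  simp only [e1]
  split_ifs with h1
  · rw [prod_congr rfl fun i _ => if_pos (h1 i), prod_const, card_univ, Fintype.card_fin, inv_pow, div_eq_mul_inv]
  · rw [not_forall] at h1
    obtain ⟨i, hi⟩ := h1
    rw [prod_eq_zero (mem_univ i) (if_neg hi), mul_zero, zero_div]

/-- **Prime tuples with shapes in sparse residue classes and arbitrary weights.** For all `k ≥ 1`, `ρ > 0` and `A` there
is `c` such that for all `B` there is `E₀` such that for all `E ≥ E₀` and all sufficiently large `x`, with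
`z = ⌈(log x) ^ E⌉`, there is a set `D` of at most `(log x) ^ c` integers, all of them with a radical larger than
`(log x) ^ B`, such that for all moduli `1 ≤ q_i ≤ x ^ (2 / 3 - ρ)` which have a radical `≤ (log x) ^ B` or are not
divisible by a member of `D` and ALL integers `a_i`, `i = 1, ..., k`:
(1) for EVERY function `w : ℕ → [-1, 1]`, all but at most `(∏ x / q_i) / (log x) ^ A` of the tuples `h` of integers
`|h_i| ≤ x`, `h_i ≡ a_i (mod q_i)`, satisfy `|primeSum x w h - roughSum x z w h / (mertens z) ^ k| ≤ x / (log x) ^ A`;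
(2) all but at most `(∏ x / q_i) / (log x) ^ A` of the tuples `h` of distinct integers `0 ≤ h_i ≤ x`,
`h_i ≡ a_i (mod q_i)`, satisfy `|primeSum x 1 h - singular h * x| ≤ x / (log x) ^ A`. -/
theorem result (k : ℕ) (hk : 1 ≤ k) (ρ : ℝ) (hρ : 0 < ρ) (A : ℕ) :
    ∃ c : ℕ, ∀ B : ℕ, ∃ E₀ : ℕ, ∀ E : ℕ, E₀ ≤ E → ∃ x₀ : ℕ, ∀ x : ℕ, x₀ ≤ x →
      ∃ D : Finset ℕ, (D.card : ℝ) ≤ Real.log x ^ c ∧ (∀ d ∈ D, Real.log x ^ B < (rad d : ℝ)) ∧
      ∀ q : Fin k → ℕ, (∀ i, 1 ≤ q i ∧ (q i : ℝ) ≤ (x : ℝ) ^ (2 / 3 - ρ) ∧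
        ((rad (q i) : ℝ) ≤ Real.log x ^ B ∨ ∀ d ∈ D, ¬ d ∣ q i)) → ∀ a : Fin k → ℤ,
        (∀ w : ℕ → ℝ, (∀ n, |w n| ≤ 1) →
          ({h : Fin k → ℤ | (∀ i, |h i| ≤ x ∧ h i ≡ a i [ZMOD q i]) ∧
            ¬ |primeSum x w h - roughSum x ⌈Real.log x ^ E⌉₊ w h / mertens ⌈Real.log x ^ E⌉₊ ^ k| ≤
              x / Real.log x ^ A}.ncard : ℝ) ≤ (∏ i, ((x : ℝ) / q i)) / Real.log x ^ A) ∧
        ({h : Fin k → ℤ | Function.Injective h ∧ (∀ i, 0 ≤ h i ∧ h i ≤ x ∧ h i ≡ a i [ZMOD q i]) ∧
          ¬ |primeSum x (fun _ => 1) h - singular h * x| ≤ x / Real.log x ^ A}.ncard : ℝ) ≤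
            (∏ i, ((x : ℝ) / q i)) / Real.log x ^ A := by
  classical
  obtain ⟨c, h1⟩ := Pool.Agent.H579.R.tup4R k hk hρ A
  refine ⟨c, fun B => ?_⟩
  obtain ⟨E₀, h2⟩ := h1 B
  refine ⟨E₀, fun E hE => ?_⟩
  obtain ⟨x₀, h3⟩ := h2 E hE
  refine ⟨x₀, fun x hx => ?_⟩
  obtain ⟨D, hD1, hD2, -, h4⟩ := h3 x hx
  refine ⟨D, hD1, hD2, fun q hq' a => ?_⟩
  have hq := fun i => (⟨(hq' i).1, (hq' i).2.1, Pool.Agent.H579.R.reg_of_rad (hq' i).1 hD2 (hq' i).2.2⟩ :
    1 ≤ q i ∧ (q i : ℝ) ≤ (x : ℝ) ^ (2 / 3 - ρ) ∧ ∀ d ∈ D, ¬ d ∣ q i)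
  obtain ⟨h5, h6⟩ := h4 q hq a
  have hfin : ∀ T : Set (Fin k → ℤ), (∀ h ∈ T, ∀ i, |h i| ≤ x) → T.Finite := by
    intro T hT
    refine Set.Finite.subset (Fintype.piFinset (fun _ : Fin k => Finset.Icc (-(x : ℤ)) x)).finite_toSet ?_
    intro h hh
    rw [Finset.mem_coe, Fintype.mem_piFinset]
    intro i
    exact Finset.mem_Icc.2 (abs_le.1 (hT h hh i))
  refine ⟨fun w hw => ?_, ?_⟩
  · have hf := hfin {h : Fin k → ℤ | (∀ i, |h i| ≤ x ∧ h i ≡ a i [ZMOD q i]) ∧
            ¬ |primeSum x w h - roughSum x ⌈Real.log x ^ E⌉₊ w h / mertens ⌈Real.log x ^ E⌉₊ ^ k| ≤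
              x / Real.log x ^ A} (fun h hh i => (hh.1 i).1)
    rw [Set.ncard_eq_toFinset_card _ hf]
    refine h5 (Icc 1 x) (Subset.refl _) w (fun n _ => hw n) hf.toFinset (fun h hh => ?_) (fun h hh => ?_)
    · exact (hf.mem_toFinset.1 hh).1
    · have e1 := (hf.mem_toFinset.1 hh).2
      rw [not_le] at e1
      have e2 : ∑ n ∈ Icc 1 x, w n * (∏ i, Pool.Agent.H579.G.ex Pool.Agent.H579.G.thp (h i) n -
          ∏ i, Pool.Agent.H579.G.ex (Pool.Agent.H373R2.T7.lamz ⌈Real.log x ^ E⌉₊) (h i) n) =
          primeSum x w h - roughSum x ⌈Real.log x ^ E⌉₊ w h / mertens ⌈Real.log x ^ E⌉₊ ^ k := by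
        rw [← primeSum_eq, ← roughSum_eq, ← sum_sub_distrib]
        exact sum_congr rfl fun n _ => by ring
      rw [e2]
      exact e1
  · have hf := hfin {h : Fin k → ℤ | Function.Injective h ∧ (∀ i, 0 ≤ h i ∧ h i ≤ x ∧ h i ≡ a i [ZMOD q i]) ∧
          ¬ |primeSum x (fun _ => 1) h - singular h * x| ≤ x / Real.log x ^ A} (fun h hh i => by
            obtain ⟨e1, e2, -⟩ := hh.2.1 i
            exact abs_le.2 ⟨by omega, e2⟩)
    rw [Set.ncard_eq_toFinset_card _ hf]
    refine h6 hf.toFinset (fun h hh => ?_) (fun h hh => ?_)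
    · have e1 := hf.mem_toFinset.1 hh
      exact ⟨e1.1, e1.2.1⟩
    · have e1 := (hf.mem_toFinset.1 hh).2.2
      rw [not_le] at e1
      rw [singular_eq]
      have e2 : ∑ n ∈ Icc 1 x, ∏ i, Pool.Agent.H579.G.ex Pool.Agent.H579.G.thp (h i) n =
          primeSum x (fun _ => 1) h := by
        rw [← primeSum_eq]
        exact sum_congr rfl fun n _ => by rw [one_mul]
      rw [e2]
      exact e1

end Pool.Agent.Results.MP_68a45e_nt.ArbitraryWeightsSparseShapes
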