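import Mathlib
import Pool.Agent.H529.G.Final

/-!
# The Hardy-Littlewood order for forty-four almost primes, two of them primes

For every admissible 44-tuple of shifts the set of `n ≤ x` such that all `n + h i` are free of prime factors
`≤ x ^ κ` (hence have at most `1 / κ` prime factors up to a factor `1 + o (1)`) and two of them are primes has at
least `c x / (log x) ^ 44` elements, the order of magnitude which the conjecture predicts for the tuple.
(`Pool.Agent.H529.G.dhl44R`.)
-/

set_option autoImplicit false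

open Finset Filter

namespace Pool.Agent.Results.MP_68a45e_nt.RightOrderFortyFour

/-- There is an absolute constant `κ > 0` such that for all pairwise distinct shifts `h 0, ..., h 43` which
for every prime `p` miss a residue class modulo `p` there is `c > 0` such that for all large `x` at least
`c x / (log x) ^ 44` natural numbers `n ≤ x` have the property: no `n + h i` has a prime factor `≤ x ^ κ`, and
at least two of the `n + h i` are primes. -/
theorem result : ∃ κ : ℝ, 0 < κ ∧ ∀ h : Fin 44 → ℕ, Function.Injective h →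
    (∀ p : ℕ, p.Prime → ∃ a : ℕ, ∀ i, ¬ p ∣ a + h i) →
    ∃ c : ℝ, 0 < c ∧ ∀ᶠ x : ℝ in atTop, c * x / Real.log x ^ 44 ≤
      (Set.ncard {n : ℕ | (n : ℝ) ≤ x ∧ (∀ i, ∀ p : ℕ, p.Prime → (p : ℝ) ≤ x ^ κ → ¬ p ∣ n + h i) ∧
        ∃ i j, i ≠ j ∧ (n + h i).Prime ∧ (n + h j).Prime} : ℝ) := by
  classical
  obtain ⟨k, hk, H⟩ := Pool.Agent.H529.G.dhl44R
  refine ⟨k / 2, by positivity, fun h hinj hadm => ?_⟩
  have adm : Pool.Agent.H95R2.BG.LF.AdmissibleL (fun _ : Fin 44 => 1) h := by
    refine ⟨fun _ => le_rfl, fun i j hij e => ?_, fun p hp => ?_⟩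
    · simp only [one_mul] at e
      exact hij (hinj e).symm
    · obtain ⟨a, ha⟩ := hadm p hp
      exact ⟨a, fun i => by simpa only [one_mul] using ha i⟩
  obtain ⟨c, hc, hX⟩ := H (fun _ => 1) h adm
  refine ⟨c / 3, by positivity, ?_⟩
  have h3 : Tendsto (fun x : ℝ => x / 3) atTop atTop := tendsto_id.atTop_div_const (by norm_num)
  have hpw : ∀ᶠ x : ℝ in atTop, (3 : ℝ) ^ k ≤ x ^ (k / 2) :=
    (tendsto_rpow_atTop (by positivity : 0 < k / 2)).eventually_ge_atTop _
  filter_upwards [h3.eventually hX, eventually_ge_atTop (600 : ℝ), hpw] with x hx1 hx hx2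
  have hx0 : 0 < x := by linarith
  have hl3 : 0 < Real.log (x / 3) := Real.log_pos (by linarith)
  have hl : Real.log (x / 3) ≤ Real.log x := Real.log_le_log (by linarith) (by linarith)
  have hpow : Real.log (x / 3) ^ 44 ≤ Real.log x ^ 44 := pow_le_pow_left₀ hl3.le hl 44
  have h1 : c * (x / 3) / Real.log x ^ 44 ≤ c * (x / 3) / Real.log (x / 3) ^ 44 :=
    div_le_div_of_nonneg_left (by positivity) (pow_pos hl3 44) hpow
  have h2 : c / 3 * x / Real.log x ^ 44 = c * (x / 3) / Real.log x ^ 44 := by ring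
  rw [h2]
  refine (h1.trans hx1).trans ?_
  rw [← Set.ncard_coe_finset, Nat.cast_le]
  apply Set.ncard_le_ncard
  · intro n hn
    rw [Pool.Agent.X34.E.goodR, Finset.coe_filter] at hn
    obtain ⟨hn1, -, hn2, hn3⟩ := hn
    rw [mem_Icc] at hn1
    have hn4 : (n : ℝ) ≤ 3 * (x / 3) := (Nat.le_floor_iff (by linarith)).mp hn1.2
    refine ⟨by linarith, fun i p hp hpx hd => ?_, ?_⟩
    · refine hn2 i p hp (hpx.trans ?_) (by simpa only [one_mul] using hd)
      rw [Real.div_rpow hx0.le (by norm_num), le_div_iff₀ (by positivity)]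
      calc x ^ (k / 2) * 3 ^ k ≤ x ^ (k / 2) * x ^ (k / 2) :=
            mul_le_mul_of_nonneg_left hx2 (by positivity)
        _ = x ^ k := by rw [← Real.rpow_add hx0]; ring_nf
    · simpa only [one_mul] using hn3
  · exact (Set.finite_Iic ⌊x⌋₊).subset fun n hn => Nat.le_floor hn.1

end Pool.Agent.Results.MP_68a45e_nt.RightOrderFortyFour
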