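import Mathlib
import Pool.Agent.H528.VecD

set_option autoImplicit false

/-!
# The full asymptotic sieve in `k` variables for almost all tuples of shifts from arbitrary sparse sets

Bombieri's asymptotic sieve determines, under the Elliott–Halberstam conjecture, the distribution of the products of
exactly `r` primes in a shifted sequence up to parity. Here this is done in `k` variables at once, unconditionally, for all
`k`-element subsets `H` of an ARBITRARY set `A ⊆ [1, N]` of shifts with at most `C(|A|, k - 1) N ^ δ` exceptions, `δ < 1`.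

A product `m` of `r` distinct primes `p₁, …, p_r ≥ N ^ ξ` gets for a list `l = k₁, …, k_r` the weight
`∑ ∏ (log p_i / log N) ^ (k_i + 1)`, summed over the orderings of the `p_i`; the mean value of the weight is
`c(l) / log N`, `c(l) = k₁! ⋯ k_r! / (r - 1 + k₁ + ⋯ + k_r)!`.

* The sum over `n` of the product of the weights of the `n + h`, `h ∈ H`, with an own list `l(h)` of any length for each
  `h`, is `∏ c(l(h))` times the same sum in which every list of odd length is replaced by the list `0` (primes) and every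
  list of even length by the list `0, 0` (products of two primes), up to `ε` times the order of magnitude. So the number
  of the prime factors of the `n + h` and the sizes of the prime factors are distributed as expected, as soon as the
  parities of these numbers are.
* The sum over the `2 ^ k` choices of parities is asymptotically `2 ^ k` times the expected value.

The `n` run through an arbitrary set `P`, through all integers up to `N` or through the primes up to `N`.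
-/

namespace Pool.Agent.Results.MP_68a45e_nt.VectorAsymptoticSieve

open Finset Filter
open Pool.Agent.H387R2.Uni

/-- the sum of `a(p₁) ^ (k₁ + 1) ⋯ a(p_r) ^ (k_r + 1)` over the orderings `p₁, …, p_r` of the set `P` (and `0` if the
number of the elements of `P` is not the length `r` of the list `k₁, …, k_r`) -/
noncomputable def moment (a : ℕ → ℝ) : List ℕ → Finset ℕ → ℝ
  | [], P => if P = ∅ then 1 else 0
  | k :: l, P => ∑ p ∈ P, a p ^ (k + 1) * moment a l (P.erase p)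

open Classical in
/-- the weight of `m`: `0` unless `m` is the product of `r` distinct primes, all at least `N ^ ξ` (`r` is the length of
the list `l = k₁, …, k_r`), and else the sum of the `∏ (log p_i / log N) ^ (k_i + 1)` over the orderings of them -/
noncomputable def weight (N : ℕ) (ξ : ℝ) (l : List ℕ) (m : ℕ) : ℝ :=
  if Squarefree m ∧ ∀ q : ℕ, q.Prime → q ∣ m → (N : ℝ) ^ ξ ≤ q then
    moment (fun p => Real.log p / Real.log N) l m.primeFactors else 0

/-- the constant `k₁! ⋯ k_r! / (r - 1 + k₁ + ⋯ + k_r)!` -/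
noncomputable def coeff (l : List ℕ) : ℝ := ((l.map Nat.factorial).prod : ℝ) / ((l.length - 1 + l.sum).factorial : ℝ)

/-- the sum over the `n ∈ P` of the products of the weights of the `n + h`, `h ∈ H`, with the list `l h` for `h` -/
noncomputable def mass (N : ℕ) (ξ : ℝ) (P : Finset ℕ) (l : ℕ → List ℕ) (H : Finset ℕ) : ℝ :=
  ∑ n ∈ P, ∏ h ∈ H, weight N ξ (l h) (n + h)

/-- the list of reference with the same parity of the length: primes, or products of two primes -/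
def reference (l : List ℕ) : List ℕ := if Odd l.length then [0] else [0, 0]

/-- primes for the shifts in `S`, products of two primes for the others -/
def pattern (S : Finset ℕ) (h : ℕ) : List ℕ := if h ∈ S then [0] else [0, 0]

/-- `∏_{p ≤ y} (1 - 1 / p)` -/
noncomputable def eulerProd (y : ℕ) : ℝ := ∏ p ∈ (Icc 1 y).filter Nat.Prime, (1 - 1 / (p : ℝ))

open Classical in
/-- the expected number of the `n ∈ P` with all `n + h` prime: the number of the `n ∈ P` such that no `n + h`, `h ∈ H`, has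
a prime factor `≤ y`, divided by the power `|H|` of `log N ∏_{p ≤ y} (1 - 1 / p)`, where `y` is `exp (κ log N / log log N)` -/
noncomputable def expected (κ : ℝ) (N : ℕ) (P H : Finset ℕ) : ℝ :=
  ((P.filter (fun n => ∀ h ∈ H, ∀ q : ℕ, q.Prime →
    q ≤ ⌊Real.exp (κ * Real.log N / Real.log (Real.log N))⌋₊ → ¬ q ∣ n + h)).card : ℝ) /
    (Real.log N * eulerProd ⌊Real.exp (κ * Real.log N / Real.log (Real.log N))⌋₊) ^ H.card

/-- the law for the set `P` and the shifts `H`, with error `Er` and expected value `E` -/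
def Law (𝓛 : Finset (List ℕ)) (N : ℕ) (ξ : ℝ) (P H : Finset ℕ) (E Er : ℝ) : Prop :=
  (∀ l : ℕ → List ℕ, (∀ h ∈ H, l h ∈ 𝓛) →
    |mass N ξ P l H - (∏ h ∈ H, coeff (l h)) * mass N ξ P (fun h => reference (l h)) H| ≤ Er) ∧
  |∑ S ∈ H.powerset, mass N ξ P (pattern S) H - 2 ^ H.card * E| ≤ Er

open Pool.Agent.Y822 Pool.Agent.Y822.Par3
open Pool.Agent.H373R2.T7 (Vz)
open Pool.Agent.H528.UG (wM lg)
open Pool.Agent.H528.Mn (ac nn)
open Pool.Agent.H528.Vec

lemma ro_iff' {ξ : ℝ} {N m : ℕ} (hN : 1 ≤ N) :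
    (∀ q : ℕ, q.Prime → q ∣ m → (N : ℝ) ^ ξ ≤ q) ↔ Ro (zN ξ N) m := by
  constructor
  · intro h1 q hq hqz hqd
    have h3 := zN_lt' (ε₁ := ξ) hN (h1 q hq hqd)
    omega
  · intro h1 q hq hqd
    by_contra h2
    push Not at h2
    exact h1 q hq (le_zN h2) hqd

lemma moment_eq (a : ℕ → ℝ) (l : List ℕ) : ∀ P, moment a l P = Pool.Agent.H528.Mo.M a l P := by
  induction l with
  | nil =>
    intro P
    unfold moment Pool.Agent.H528.Mo.M
    rfl
  | cons k l ih =>
    intro P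
    unfold moment Pool.Agent.H528.Mo.M
    exact sum_congr rfl fun p _ => by rw [ih]

lemma weight_eq {N : ℕ} {ξ : ℝ} (hN : 1 ≤ N) (l : List ℕ) (m : ℕ) : weight N ξ l m = wM N (zN ξ N) l m := by
  unfold weight wM ro
  rw [ro_iff' hN]
  by_cases h1 : Squarefree m
  · by_cases h2 : Ro (zN ξ N) m
    · rw [if_pos ⟨h1, h2⟩, if_pos h2, if_pos h1, one_mul, moment_eq]
      rfl
    · rw [if_neg (fun h => h2 h.2), if_neg h2, zero_mul]
  · rw [if_neg (fun h => h1 h.1), if_neg h1, mul_zero]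

lemma eulerProd_eq (y : ℕ) : eulerProd y = Vz y := by
  unfold eulerProd Vz
  rfl

lemma coeff_eq (k : ℕ) (l : List ℕ) : coeff (k :: l) = ac k l := by
  unfold coeff ac nn Pool.Agent.H528.Mo.fct
  rw [List.length_cons, Nat.add_sub_cancel]

/-- the list as a pair -/
def toPair (l : List ℕ) : ℕ × List ℕ := (l.headI, l.tail)

lemma toPair_eq {l : List ℕ} (hl : l ≠ []) : (toPair l).1 :: (toPair l).2 = l := by
  cases l with
  | nil => exact absurd rfl hl
  | cons k l => rfl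

lemma toPair_par {l : List ℕ} (hl : l ≠ []) : Even (toPair l).2.length ↔ Odd l.length := by
  cases l with
  | nil => exact absurd rfl hl
  | cons k l =>
    show Even l.length ↔ Odd (k :: l).length
    rw [List.length_cons, Nat.odd_add_one, Nat.not_odd_iff_even]

/-- the type of a list -/
def ty (l : List ℕ) : WT := .lst (toPair l).1 (toPair l).2

lemma cf_ty {l : List ℕ} (hl : l ≠ []) : cf (ty l) = coeff l := by
  show ac (toPair l).1 (toPair l).2 = coeff l
  rw [← coeff_eq, toPair_eq hl]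

lemma GG_ty {N y : ℕ} {ξ : ℝ} (hN : 1 ≤ N) {l : List ℕ} (hl : l ≠ []) (m : ℕ) :
    GG N (zN ξ N) y (ty l) m = weight N ξ l m := by
  show wM N (zN ξ N) ((toPair l).1 :: (toPair l).2) m = weight N ξ l m
  rw [toPair_eq hl, weight_eq hN]

lemma GG_rh {N y : ℕ} {ξ : ℝ} (hN : 1 ≤ N) {l : List ℕ} (hl : l ≠ []) (m : ℕ) :
    GG N (zN ξ N) y (rh (ty l)) m = weight N ξ (reference l) m := by
  have h1 : rh (ty l) = if Even (toPair l).2.length then .lst 0 [] else .lst 0 [0] := rh_lst _ _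
  rw [h1]
  unfold reference
  by_cases h : Odd l.length
  · rw [if_pos h, if_pos ((toPair_par hl).2 h)]
    show wM N (zN ξ N) [0] m = _
    rw [weight_eq hN]
  · rw [if_neg h, if_neg (fun h2 => h ((toPair_par hl).1 h2))]
    show wM N (zN ξ N) [0, 0] m = _
    rw [weight_eq hN]

lemma law_of {𝓛 : Finset (List ℕ)} (h𝓛 : ∀ l ∈ 𝓛, l ≠ []) {N y : ℕ} {ξ : ℝ} (hN : 1 ≤ N) {P H : Finset ℕ} {f : ℕ → ℝ}
    (hf : ∀ F : ℕ → ℝ, ∑ n ∈ Icc 1 N, f n * F n = ∑ n ∈ P, F n) {E Er : ℝ}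
    (h1 : ∀ σ : ℕ → WT, (∀ t, σ t ∈ Ty (𝓛.image toPair)) →
      |TT (GG N (zN ξ N) y) N f σ H - (∏ h ∈ H, cf (σ h)) * TT (GG N (zN ξ N) y) N f (fun t => rh (σ t)) H| ≤ Er)
    (h2 : |TT (GG N (zN ξ N) y) N f (fun _ => .tot) H - 2 ^ H.card * E| ≤ Er) : Law 𝓛 N ξ P H E Er := by
  classical
  refine ⟨fun l hl => ?_, ?_⟩
  · have h3 := h1 (fun t => if t ∈ H then ty (l t) else .bot) (fun t => by
      split_ifs with ht
      · refine mem_Ty.2 (Or.inr (Or.inr ⟨toPair (l t), ?_, rfl⟩))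
        unfold LL
        rw [mem_insert, mem_insert]
        exact Or.inr (Or.inr (mem_image_of_mem _ (hl t ht)))
      · exact mem_Ty.2 (Or.inl rfl))
    have e1 : TT (GG N (zN ξ N) y) N f (fun t => if t ∈ H then ty (l t) else .bot) H = mass N ξ P l H := by
      unfold TT mass
      rw [hf]
      refine sum_congr rfl fun n _ => prod_congr rfl fun h hh => ?_
      have e0 : (fun t => if t ∈ H then ty (l t) else WT.bot) h = ty (l h) := if_pos hh
      rw [e0, GG_ty hN (h𝓛 _ (hl h hh))]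
    have e2 : TT (GG N (zN ξ N) y) N f (fun t => rh (if t ∈ H then ty (l t) else .bot)) H =
        mass N ξ P (fun h => reference (l h)) H := by
      unfold TT mass
      rw [hf]
      refine sum_congr rfl fun n _ => prod_congr rfl fun h hh => ?_
      have e0 : (fun t => rh (if t ∈ H then ty (l t) else WT.bot)) h = rh (ty (l h)) := by
        show rh (if h ∈ H then ty (l h) else WT.bot) = _
        rw [if_pos hh]
      rw [e0, GG_rh hN (h𝓛 _ (hl h hh))]
    have e3 : ∏ h ∈ H, cf (if h ∈ H then ty (l h) else .bot) = ∏ h ∈ H, coeff (l h) := by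
      refine prod_congr rfl fun h hh => ?_
      rw [if_pos hh, cf_ty (h𝓛 _ (hl h hh))]
    rw [e1, e2, e3] at h3
    exact h3
  · have e1 : ∑ S ∈ H.powerset, mass N ξ P (pattern S) H = TT (GG N (zN ξ N) y) N f (fun _ => .tot) H := by
      unfold TT mass
      rw [hf, sum_comm]
      refine sum_congr rfl fun n _ => ?_
      have e2 : ∀ h ∈ H, GG N (zN ξ N) y .tot (n + h) = weight N ξ [0] (n + h) + weight N ξ [0, 0] (n + h) := by
        intro h _
        rw [weight_eq hN, weight_eq hN]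
        rfl
      rw [prod_congr rfl e2, prod_add]
      refine sum_congr rfl fun S hS => ?_
      rw [mem_powerset] at hS
      rw [← prod_sdiff hS, mul_comm]
      congr 1
      · exact prod_congr rfl fun h hh => by unfold pattern; rw [if_pos hh]
      · exact prod_congr rfl fun h hh => by unfold pattern; rw [if_neg (Finset.mem_sdiff.1 hh).2]
    rw [e1]
    exact h2

/-- the indicator function of `P` -/
noncomputable def ind (P : Finset ℕ) (n : ℕ) : ℝ := if n ∈ P then 1 else 0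

lemma ind_bd (P : Finset ℕ) (n : ℕ) : 0 ≤ ind P n ∧ ind P n ≤ 1 := by
  unfold ind; split_ifs <;> norm_num

lemma ind_sum {N : ℕ} {P : Finset ℕ} (hP : ∀ a ∈ P, 1 ≤ a ∧ a ≤ N) (F : ℕ → ℝ) :
    ∑ n ∈ Icc 1 N, ind P n * F n = ∑ n ∈ P, F n := by
  unfold ind
  simp only [ite_mul, one_mul, zero_mul]
  rw [← sum_filter]
  congr 1
  ext n
  rw [mem_filter, mem_Icc]
  exact ⟨fun h => h.2, fun h => ⟨hP n h, h⟩⟩

lemma expected_eq {κ : ℝ} {N z : ℕ} {P H : Finset ℕ} (hP : ∀ a ∈ P, 1 ≤ a ∧ a ≤ N) :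
    expected κ N P H = TT (GG N z (yN κ N)) N (ind P) (fun _ => .bot) H := by
  classical
  rw [TT_bot]
  unfold expected
  rw [eulerProd_eq]
  have h1 : ((P.filter (fun n => ∀ h ∈ H, ∀ q : ℕ, q.Prime →
      q ≤ ⌊Real.exp (κ * Real.log N / Real.log (Real.log N))⌋₊ → ¬ q ∣ n + h)).card : ℝ) =
      Pool.Agent.H528.Gen.RE (ind P) (yN κ N) N H := by
    unfold Pool.Agent.H528.Gen.RE
    rw [ind_sum hP, card_eq_sum_ones, Nat.cast_sum, sum_filter]
    refine sum_congr rfl fun n _ => ?_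
    have e1 : (∀ h ∈ H, ∀ q : ℕ, q.Prime → q ≤ ⌊Real.exp (κ * Real.log N / Real.log (Real.log N))⌋₊ → ¬ q ∣ n + h) ↔
        ∀ h ∈ H, Ro (yN κ N) (n + h) := Iff.rfl
    by_cases h : ∀ h ∈ H, Ro (yN κ N) (n + h)
    · rw [if_pos (e1.2 h), Nat.cast_one]
      symm
      exact prod_eq_one fun t ht => Pool.Agent.H528.Avg.ro_of (h t ht)
    · rw [if_neg (fun h2 => h (e1.1 h2))]
      push Not at h
      obtain ⟨t, ht, h2⟩ := h
      symm
      refine prod_eq_zero ht ?_
      unfold ro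
      rw [if_neg h2]
  rw [h1]
  rfl

open Classical in
theorem result :
    -- the conjectured constants are convergent products, positive for admissible sets
    (∀ H : Finset ℕ, HasProd (fun p : Nat.Primes => locT H p) (CT H) ∧ (Adm H → 0 < CT H)) ∧
    -- arbitrary sets `P`
    (∀ k : ℕ, 1 ≤ k → ∀ 𝓛 : Finset (List ℕ), (∀ l ∈ 𝓛, l ≠ []) → ∀ ε : ℝ, 0 < ε → ∀ U : ℕ,
      ∃ δ ξ κ : ℝ, 0 < δ ∧ δ < 1 ∧ 0 < ξ ∧ ξ ≤ ε ∧ 0 < κ ∧ ∃ N₀ : ℕ, ∀ N : ℕ, N₀ ≤ N →
      ∀ P A : Finset ℕ, (∀ n ∈ P, 1 ≤ n ∧ n ≤ N) → (∀ a ∈ A, 1 ≤ a ∧ a ≤ N) →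
        (((A.powersetCard k).filter (fun H => ¬ Law 𝓛 N ξ P H (expected κ N P H)
          (ε * expected κ N P H + N / Real.log N ^ U))).card : ℝ) ≤ A.card.choose (k - 1) * (N : ℝ) ^ δ) ∧
    -- all integers
    (∀ k : ℕ, 1 ≤ k → ∀ 𝓛 : Finset (List ℕ), (∀ l ∈ 𝓛, l ≠ []) → ∀ ε : ℝ, 0 < ε →
      ∃ δ ξ : ℝ, 0 < δ ∧ δ < 1 ∧ 0 < ξ ∧ ξ ≤ ε ∧ ∃ N₀ : ℕ, ∀ N : ℕ, N₀ ≤ N →
      ∀ A : Finset ℕ, (∀ a ∈ A, 1 ≤ a ∧ a ≤ N) →
        (((A.powersetCard k).filter (fun H => Adm H ∧ ¬ Law 𝓛 N ξ (Icc 1 N) H (CT H * (N / Real.log N ^ k))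
          (ε * (CT H * (N / Real.log N ^ k))))).card : ℝ) ≤ A.card.choose (k - 1) * (N : ℝ) ^ δ) ∧
    -- all primes
    ∀ k : ℕ, 1 ≤ k → ∀ 𝓛 : Finset (List ℕ), (∀ l ∈ 𝓛, l ≠ []) → ∀ ε : ℝ, 0 < ε →
      ∃ δ ξ : ℝ, 0 < δ ∧ δ < 1 ∧ 0 < ξ ∧ ξ ≤ ε ∧ ∃ N₀ : ℕ, ∀ N : ℕ, N₀ ≤ N →
      ∀ A : Finset ℕ, (∀ a ∈ A, 1 ≤ a ∧ a ≤ N) →
        (((A.powersetCard k).filter (fun H => Adm (insert 0 H) ∧
          ¬ Law 𝓛 N ξ ((Icc 1 N).filter Nat.Prime) H (CT (insert 0 H) * (N / Real.log N ^ (k + 1)))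
            (ε * (CT (insert 0 H) * (N / Real.log N ^ (k + 1)))))).card : ℝ) ≤ A.card.choose (k - 1) * (N : ℝ) ^ δ := by
  have habs : ∀ (δ : ℝ) (B : ℕ), δ < 1 → ∃ N₁ : ℕ, ∀ N : ℕ, N₁ ≤ N → ∀ X : ℝ, 0 ≤ X →
      X * ((N : ℝ) ^ δ * Real.log N ^ B) ≤ X * (N : ℝ) ^ ((1 + δ) / 2) := by
    intro δ B hδ
    have e2 := ev_logN (ev_pow_exp B ((1 - δ) / 2) 1 (by linarith))
    obtain ⟨N₀, hN₀⟩ := eventually_atTop.1 e2
    refine ⟨max N₀ 1, fun N hN X hX => mul_le_mul_of_nonneg_left ?_ hX⟩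
    have h2 := hN₀ N ((le_max_left _ _).trans hN)
    have hN1 : 1 ≤ N := (le_max_right _ _).trans hN
    have hN0 : (0 : ℝ) < N := by exact_mod_cast hN1
    rw [one_mul] at h2
    have e3 : (N : ℝ) ^ ((1 + δ) / 2) = (N : ℝ) ^ δ * Real.exp ((1 - δ) / 2 * Real.log N) := by
      rw [mul_comm ((1 - δ) / 2), ← Real.rpow_def_of_pos hN0, ← Real.rpow_add hN0]
      congr 1
      ring
    rw [e3]
    exact mul_le_mul_of_nonneg_left h2 (by positivity)
  refine ⟨fun E => ⟨CT_hasProd _, fun hA => ?_⟩, fun k hk 𝓛 h𝓛 ε hε U => ?_, fun k hk 𝓛 h𝓛 ε hε => ?_,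
    fun k hk 𝓛 h𝓛 ε hε => ?_⟩
  · rw [← CT_en]
    apply Pool.Agent.H386R2.HL.singularSeries_pos (en_inj _)
    intro p hp
    rw [nu_en]
    exact hA p hp
  · obtain ⟨k, rfl⟩ : ∃ j, k = j + 1 := ⟨k - 1, by omega⟩
    obtain ⟨δ, hδ1, hδ2, ξ, hξ, hξ8, hξε, κ, hκ, hκ1, C, hB⟩ := vec (𝓛.image toPair) k U ε hε
    obtain ⟨N₁, hN₁⟩ := habs δ C hδ2
    obtain ⟨N₀, hN₀⟩ := eventually_atTop.1 hB
    refine ⟨(1 + δ) / 2, ξ, κ, by linarith, by linarith, hξ, hξε, hκ, max (max N₀ N₁) 1, fun N hN P A hP hA => ?_⟩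
    have h1 := hN₀ N ((le_max_left _ _).trans ((le_max_left _ _).trans hN))
    have h2 := hN₁ N ((le_max_right _ _).trans ((le_max_left _ _).trans hN))
    have hN1 : 1 ≤ N := (le_max_right _ _).trans hN
    rw [Nat.add_sub_cancel]
    refine (h1 (ind P) (ind_bd P) A hA _ fun H hH => ?_).trans (h2 _ (Nat.cast_nonneg _))
    rw [mem_filter] at hH
    refine ⟨hH.1, ?_⟩
    by_contra hcon
    push Not at hcon
    apply hH.2
    rw [← expected_eq hP] at hcon
    refine law_of h𝓛 hN1 (ind_sum hP) hcon ?_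
    have h3 := hcon (fun _ => .tot) (fun _ => mem_Ty.2 (Or.inr (Or.inl rfl)))
    have h5 : (∏ h ∈ H, cf ((fun _ => WT.tot) h)) = 2 ^ H.card := by
      have : ∀ h ∈ H, cf ((fun _ => WT.tot) h) = 2 := fun h _ => rfl
      rw [prod_congr rfl this, prod_const]
    have h6 : TT (GG N (zN ξ N) (yN κ N)) N (ind P) (fun t => rh ((fun _ => WT.tot) t)) H = expected κ N P H := by
      rw [expected_eq hP (z := zN ξ N)]
      rfl
    rw [h5, h6] at h3
    exact h3
  · obtain ⟨k, rfl⟩ : ∃ j, k = j + 1 := ⟨k - 1, by omega⟩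
    obtain ⟨δ, hδ1, hδ2, ξ, hξ, hξ8, hξε, y, C, hB⟩ := vec_one (𝓛.image toPair) k ε hε
    obtain ⟨N₁, hN₁⟩ := habs δ C hδ2
    obtain ⟨N₀, hN₀⟩ := eventually_atTop.1 hB
    refine ⟨(1 + δ) / 2, ξ, by linarith, by linarith, hξ, hξε, max (max N₀ N₁) 1, fun N hN A hA => ?_⟩
    have h1 := hN₀ N ((le_max_left _ _).trans ((le_max_left _ _).trans hN))
    have h2 := hN₁ N ((le_max_right _ _).trans ((le_max_left _ _).trans hN))
    have hN1 : 1 ≤ N := (le_max_right _ _).trans hN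
    rw [Nat.add_sub_cancel]
    refine (h1 A hA _ fun H hH => ?_).trans (h2 _ (Nat.cast_nonneg _))
    rw [mem_filter] at hH
    refine ⟨hH.1, hH.2.1, fun hgood => hH.2.2 ?_⟩
    rw [mul_div_assoc] at hgood
    have hc := (mem_powersetCard.1 hH.1).2
    have hf : ∀ F : ℕ → ℝ, ∑ n ∈ Icc 1 N, (fun _ => (1 : ℝ)) n * F n = ∑ n ∈ Icc 1 N, F n := fun F =>
      sum_congr rfl fun n _ => one_mul _
    have h3 := hgood.2
    rw [← hc] at h3
    have h4 := law_of h𝓛 hN1 hf hgood.1 (E := CT H * (N / Real.log N ^ H.card)) (by rw [hc] at h3 ⊢; exact h3)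
    rw [hc] at h4
    exact h4
  · obtain ⟨k, rfl⟩ : ∃ j, k = j + 1 := ⟨k - 1, by omega⟩
    obtain ⟨δ, hδ1, hδ2, ξ, hξ, hξ8, hξε, y, C, hB⟩ := vec_prime (𝓛.image toPair) k ε hε
    obtain ⟨N₁, hN₁⟩ := habs δ C hδ2
    obtain ⟨N₀, hN₀⟩ := eventually_atTop.1 hB
    refine ⟨(1 + δ) / 2, ξ, by linarith, by linarith, hξ, hξε, max (max N₀ N₁) 1, fun N hN A hA => ?_⟩
    have h1 := hN₀ N ((le_max_left _ _).trans ((le_max_left _ _).trans hN))
    have h2 := hN₁ N ((le_max_right _ _).trans ((le_max_left _ _).trans hN))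
    have hN1 : 1 ≤ N := (le_max_right _ _).trans hN
    rw [Nat.add_sub_cancel]
    refine (h1 A hA _ fun H hH => ?_).trans (h2 _ (Nat.cast_nonneg _))
    rw [mem_filter] at hH
    refine ⟨hH.1, hH.2.1, fun hgood => hH.2.2 ?_⟩
    have hc := (mem_powersetCard.1 hH.1).2
    have e1 : CT (insert 0 H) * (N / Real.log N) / Real.log N ^ (k + 1) =
        CT (insert 0 H) * (N / Real.log N ^ (k + 1 + 1)) := by
      rw [pow_succ (Real.log N) (k + 1), mul_div_assoc, div_div, mul_comm (Real.log N)]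
    rw [e1] at hgood
    have hf : ∀ F : ℕ → ℝ, ∑ n ∈ Icc 1 N, eP n * F n = ∑ n ∈ (Icc 1 N).filter Nat.Prime, F n := by
      intro F
      rw [sum_filter]
      refine sum_congr rfl fun n _ => ?_
      unfold eP
      split_ifs <;> simp
    exact law_of h𝓛 hN1 hf hgood.1 (by rw [hc]; exact hgood.2)

end Pool.Agent.Results.MP_68a45e_nt.VectorAsymptoticSieve
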